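import Pool.Agent.Helper53.BM.MH.Defs2
import Pool.Agent.Helper12.MH.Lip
import Pool.Agent.Helper79.MH.HessCore

set_option autoImplicit false

open Filter Topology

/-! MH-7: skew operators and their exponentials. -/

namespace Pool.Agent.Helper53.BM

universe u

variable {E : Type u} [NormedAddCommGroup E] [NormedSpace ℝ E]

theorem hess_skew (h : MicroSp E) {D : E →L[ℝ] E} (hD : D ∈ skewOps E) {z : E} (hz : z ≠ 0)
    (v : E) : hess z v (D z) = - J z (D v) := by
  obtain ⟨L, hL0, hL⟩ := J_lipschitz h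
  have h1 : HasFDerivAt J (hess z) z := (J_differentiableAt h hL0 hL hz).hasFDerivAt
  have h2 : HasFDerivAt (fun y : E => J y (D y)) (((J z).comp D) + (hess z).flip (D z)) z :=
    h1.clm_apply D.hasFDerivAt
  have h3 : (fun y : E => J y (D y)) = fun _ => (0 : ℝ) := by
    funext y
    exact mem_skewOps.mp hD y
  rw [h3] at h2
  have h4 := h2.unique (hasFDerivAt_const (0 : ℝ) z)
  have h5 : (((J z).comp D) + (hess z).flip (D z)) v = 0 := by
    rw [h4]
    rfl
  have h6 : (((J z).comp D) + (hess z).flip (D z)) v = J z (D v) + hess z v (D z) := rfl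
  rw [h6] at h5
  linarith

/-- The flow of a skew operator preserves the norm. -/
lemma norm_exp_skew [CompleteSpace E] (h : MicroSp E) {D : E →L[ℝ] E} (hD : D ∈ skewOps E)
    (z : E) : ‖(NormedSpace.exp D) z‖ = ‖z‖ := by
  obtain ⟨L, hL0, hL⟩ := J_lipschitz h
  have h1 : ∀ t : ℝ, HasDerivAt (fun s : ℝ => ‖(NormedSpace.exp (s • D)) z‖ ^ 2 / 2) 0 t := by
    intro t
    have h2 : HasDerivAt (fun s : ℝ => NormedSpace.exp (s • D)) (D * NormedSpace.exp (t • D)) t :=
      hasDerivAt_exp_smul_const' D t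
    have h3 : HasDerivAt (fun s : ℝ => (NormedSpace.exp (s • D)) z)
        ((D * NormedSpace.exp (t • D)) z) t := by
      have := h2.clm_apply (hasDerivAt_const t z)
      simpa using this
    have h4 := (halfSq_hasFDerivAt hL0 hL ((NormedSpace.exp (t • D)) z)).comp_hasDerivAt t h3
    have h5 : J ((NormedSpace.exp (t • D)) z) ((D * NormedSpace.exp (t • D)) z) = 0 :=
      mem_skewOps.mp hD _
    rw [h5] at h4
    exact h4
  have h2 : ‖(NormedSpace.exp ((1 : ℝ) • D)) z‖ ^ 2 / 2 =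
      ‖(NormedSpace.exp ((0 : ℝ) • D)) z‖ ^ 2 / 2 :=
    is_const_of_deriv_eq_zero (fun t => (h1 t).differentiableAt) (fun t => (h1 t).deriv) 1 0
  rw [one_smul, zero_smul, NormedSpace.exp_zero] at h2
  change ‖(NormedSpace.exp D) z‖ ^ 2 / 2 = ‖z‖ ^ 2 / 2 at h2
  have h3 : ‖(NormedSpace.exp D) z‖ ^ 2 = ‖z‖ ^ 2 := by linarith
  exact (pow_left_inj₀ (norm_nonneg _) (norm_nonneg _) two_ne_zero).mp h3

/-- Exponentials of skew operators are isometries. -/
theorem exists_iso_exp [CompleteSpace E] (h : MicroSp E) {D : E →L[ℝ] E} (hD : D ∈ skewOps E) :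
    ∃ T : E ≃ₗᵢ[ℝ] E, (∀ z, T z = NormedSpace.exp D z) ∧
      ∀ z, T.symm z = NormedSpace.exp (-D) z := by
  let _ : NormedAlgebra ℚ (E →L[ℝ] E) := NormedAlgebra.restrictScalars ℚ ℝ (E →L[ℝ] E)
  have h1 : NormedSpace.exp D * NormedSpace.exp (-D) = 1 := by
    rw [← NormedSpace.exp_add_of_commute (Commute.neg_right (Commute.refl D)), add_neg_cancel,
      NormedSpace.exp_zero]
  have h2 : NormedSpace.exp (-D) * NormedSpace.exp D = 1 := by
    rw [← NormedSpace.exp_add_of_commute (Commute.neg_left (Commute.refl D)), neg_add_cancel,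
      NormedSpace.exp_zero]
  let e : E ≃ₗ[ℝ] E := LinearEquiv.ofLinearMap
    ((NormedSpace.exp D : E →L[ℝ] E) : E →ₗ[ℝ] E) ((NormedSpace.exp (-D) : E →L[ℝ] E) : E →ₗ[ℝ] E)
    (by
      ext z
      have := congrArg (fun A : E →L[ℝ] E => A z) h1
      simpa using this)
    (by
      ext z
      have := congrArg (fun A : E →L[ℝ] E => A z) h2
      simpa using this)
  refine ⟨⟨e, fun z => norm_exp_skew h hD z⟩, fun z => rfl, fun z => rfl⟩

lemma cj_mem_skewOps (h : MicroSp E) (T : E ≃ₗᵢ[ℝ] E) {D : E →L[ℝ] E} (hD : D ∈ skewOps E) :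
    cj T D ∈ skewOps E := by
  rw [mem_skewOps]
  intro y
  have h1 : J y = push T (J (T.symm y)) := by
    rw [← J_map h.hmt, T.apply_symm_apply]
  rw [cj_apply, h1, push_apply, T.symm_apply_apply]
  exact mem_skewOps.mp hD _

theorem isStr_skewOps [CompleteSpace E] (h : MicroSp E) : IsStr (skewOps E) where
  skew := fun D hD y => mem_skewOps.mp hD y
  conj := by
    intro D hD D' hD' t
    obtain ⟨T, hT, hTs⟩ := exists_iso_exp h ((skewOps E).smul_mem t hD)
    have h1 : NormedSpace.exp (t • D) * D' * NormedSpace.exp (-(t • D)) = cj T D' := by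
      ext z
      rw [cj_apply, hTs, hT]
      rfl
    rw [h1]
    exact cj_mem_skewOps h T hD'
  move := by
    intro ε hε
    obtain ⟨t, ht, hmod⟩ := h.hmt ε hε
    refine ⟨t, ht, fun x y hx hy hxy => ?_⟩
    obtain ⟨T, hT, hTc⟩ := hmod x y hx hy hxy
    exact ⟨T, hT, hTc, fun D hD => ⟨cj_mem_skewOps h T hD, cj_mem_skewOps h T.symm hD⟩⟩

end Pool.Agent.Helper53.BM
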